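import Pool.Agent.H92.EX.Targets
import Pool.Agent.H58.MT.BCL

/-!
# MP_34b97f_an: almost sure vanishing of the correlations (XDAS)
-/

open MeasureTheory ProbabilityTheory Filter Topology Finset
open scoped ENNReal

universe u

namespace Pool.Agent.H74.EX

open Pool.Agent.H89.MT Pool.Agent.H92.EX
open Pool.Agent.H58.MT (scale_ge scale_three scale_tendsto)

/-- the primes -/
noncomputable abbrev pp (j : ℕ) : ℕ := Nat.nth Nat.Prime j

theorem pp_mono {i j : ℕ} (h : i ≤ j) : pp i ≤ pp j :=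
  (Nat.nth_strictMono Nat.infinite_setOfPred_prime).monotone h

theorem pp_add (i j : ℕ) : i + pp j ≤ pp (i + j) :=
  (Nat.nth_strictMono Nat.infinite_setOfPred_prime).add_le_nat i j

theorem pp_ge (j : ℕ) : j + 2 ≤ pp j := Nat.add_two_le_nth_prime j

theorem pp_pos (j : ℕ) : (0 : ℝ) < pp j := by
  have := pp_ge j
  have h : 0 < pp j := by omega
  exact_mod_cast h

/-- the tail of the sum of the squares of the reciprocals -/
theorem sq_sum (k L : ℕ) (hL : k ≤ L) :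
    ∑ j ∈ Ico k L, 1 / (pp j : ℝ) ^ 2 ≤ 1 / ((pp k : ℝ) - 1) - 1 / ((pp L : ℝ) - 1) := by
  induction L, hL using Nat.le_induction with
  | base => simp
  | succ L hL ih =>
    rw [Finset.sum_Ico_succ_top hL]
    have h1 : (pp L : ℝ) + 1 ≤ pp (L + 1) := by
      have := pp_add 1 L
      rw [add_comm 1 L] at this
      have h : pp L + 1 ≤ pp (L + 1) := by omega
      exact_mod_cast h
    have h2 : (2 : ℝ) ≤ pp L := by
      have := pp_ge L
      have h : 2 ≤ pp L := by omega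
      exact_mod_cast h
    have h3 : 1 / ((pp (L + 1) : ℝ) - 1) ≤ 1 / (pp L : ℝ) :=
      one_div_le_one_div_of_le (by linarith) (by linarith)
    have h4 : 1 / (pp L : ℝ) ^ 2 ≤ 1 / ((pp L : ℝ) - 1) - 1 / (pp L : ℝ) := by
      have e : 1 / ((pp L : ℝ) - 1) - 1 / (pp L : ℝ) = 1 / (((pp L : ℝ) - 1) * pp L) := by
        have : (pp L : ℝ) - 1 ≠ 0 := by linarith
        field_simp
        ring
      rw [e]
      refine one_div_le_one_div_of_le (by nlinarith) (by nlinarith)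
    linarith

theorem sq_sum' (k L : ℕ) : ∑ j ∈ Ico k L, 1 / (pp j : ℝ) ^ 2 ≤ 2 / (pp k : ℝ) := by
  have h2 : (2 : ℝ) ≤ pp k := by
    have := pp_ge k
    have h : 2 ≤ pp k := by omega
    exact_mod_cast h
  rcases le_total k L with h | h
  · have h1 := sq_sum k L h
    have h3 : (2 : ℝ) ≤ pp L := by
      have := pp_ge L
      have h : 2 ≤ pp L := by omega
      exact_mod_cast h
    have h4 : 0 ≤ 1 / ((pp L : ℝ) - 1) := one_div_nonneg.2 (by linarith)
    have h5 : 1 / ((pp k : ℝ) - 1) ≤ 2 / (pp k : ℝ) := by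
      rw [div_le_div_iff₀ (by linarith) (by linarith)]
      linarith
    linarith
  · rw [Finset.Ico_eq_empty_of_le h, Finset.sum_empty]
    positivity

/-- the coefficient of a large prime is zero -/
theorem Y_zero (N : ℕ) (H : Finset ℕ) (j : ℕ) (x : ℕ → Bool) (h : N + H.sup id < pp j) :
    Y N H j x = 0 := by
  unfold Y
  have h1 : (Icc 1 N).filter (fun n => top (PP H n) = pp j ∧ ¬ (pp j) ^ 2 ∣ PP H n) = ∅ := by
    rw [Finset.filter_eq_empty_iff]
    rintro n hn ⟨h2, -⟩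
    rw [Finset.mem_Icc] at hn
    have hne : (PP H n).primeFactors.Nonempty := by
      rw [Finset.nonempty_iff_ne_empty]
      intro h3
      unfold top at h2
      rw [h3] at h2
      simp at h2
      have := pp_ge j
      omega
    obtain ⟨p, hp1, hp2⟩ := Finset.exists_mem_eq_sup _ hne (id : ℕ → ℕ)
    have hp3 : p = pp j := by
      unfold top at h2
      rw [← h2, hp2]
      rfl
    have hp4 := Nat.prime_of_mem_primeFactors hp1
    have hp5 := Nat.dvd_of_mem_primeFactors hp1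
    unfold PP at hp5
    obtain ⟨a, ha, hd⟩ := (hp4.prime.dvd_finsetProd_iff _).1 hp5
    have h5 := Nat.le_of_dvd (by omega) hd
    have h6 : a ≤ H.sup id := Finset.le_sup (f := id) ha
    omega
  rw [h1, Finset.sum_empty, zero_div]

/-- the biased part -/
theorem bias_part (N s k L : ℕ) (T C : ℝ) (hC : 0 ≤ C) (hN : 0 < N) (hk : T < pp k)
    (μ Z : ℕ → ℝ) (hμ : ∀ j, |μ j| ≤ 1) (hZ : ∀ j, |Z j| ≤ C / (pp j : ℝ))
    (hZ0 : ∀ j, N + s < pp j → Z j = 0) :
    |∑ j ∈ Ico k L, μ j * Z j| ≤ C * (∑ j ∈ (range N).filter (fun j => T < (pp j : ℝ) ∧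
      pp j ≤ N), |μ j| / (pp j : ℝ)) + C * (s / N) := by
  have hN' : (0 : ℝ) < N := by exact_mod_cast hN
  have h1 : |∑ j ∈ Ico k L, μ j * Z j| ≤
      ∑ j ∈ (Ico k L).filter (fun j => pp j ≤ N + s), C * (|μ j| / (pp j : ℝ)) := by
    refine (Finset.abs_sum_le_sum_abs _ _).trans ?_
    rw [← Finset.sum_filter_add_sum_filter_not (Ico k L) (fun j => pp j ≤ N + s)]
    have h2 : ∑ j ∈ (Ico k L).filter (fun j => ¬ pp j ≤ N + s), |μ j * Z j| = 0 := by
      refine Finset.sum_eq_zero fun j hj => ?_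
      rw [Finset.mem_filter] at hj
      rw [hZ0 j (by omega), mul_zero, abs_zero]
    rw [h2, add_zero]
    refine Finset.sum_le_sum fun j _ => ?_
    rw [abs_mul]
    calc |μ j| * |Z j| ≤ |μ j| * (C / (pp j : ℝ)) :=
          mul_le_mul_of_nonneg_left (hZ j) (abs_nonneg _)
      _ = C * (|μ j| / (pp j : ℝ)) := by ring
  refine h1.trans ?_
  rw [← Finset.mul_sum, ← mul_add]
  refine mul_le_mul_of_nonneg_left ?_ hC
  rw [← Finset.sum_filter_add_sum_filter_not ((Ico k L).filter (fun j => pp j ≤ N + s))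
    (fun j => pp j ≤ N)]
  refine add_le_add ?_ ?_
  · refine Finset.sum_le_sum_of_subset_of_nonneg ?_ fun j _ _ => by
      have := pp_pos j
      positivity
    intro j hj
    rw [Finset.mem_filter, Finset.mem_filter, Finset.mem_Ico] at hj
    rw [Finset.mem_filter, Finset.mem_range]
    refine ⟨?_, ?_, hj.2⟩
    · have := pp_ge j
      omega
    · refine lt_of_lt_of_le hk ?_
      exact_mod_cast pp_mono hj.1.1.1
  · have h2 : (((Ico k L).filter (fun j => pp j ≤ N + s)).filter (fun j => ¬ pp j ≤ N)).card ≤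
        s := by
      have h3 : (((Ico k L).filter (fun j => pp j ≤ N + s)).filter
          (fun j => ¬ pp j ≤ N)).image pp ⊆ Ioc N (N + s) := by
        intro p hp
        rw [Finset.mem_image] at hp
        obtain ⟨j, hj, rfl⟩ := hp
        rw [Finset.mem_filter, Finset.mem_filter] at hj
        rw [Finset.mem_Ioc]
        omega
      have h4 := Finset.card_le_card h3
      rw [Finset.card_image_of_injective _
        (Nat.nth_strictMono Nat.infinite_setOfPred_prime).injective, Nat.card_Ioc] at h4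
      omega
    calc ∑ j ∈ ((Ico k L).filter (fun j => pp j ≤ N + s)).filter (fun j => ¬ pp j ≤ N),
          |μ j| / (pp j : ℝ)
        ≤ ∑ j ∈ ((Ico k L).filter (fun j => pp j ≤ N + s)).filter (fun j => ¬ pp j ≤ N),
          1 / (N : ℝ) := by
          refine Finset.sum_le_sum fun j hj => ?_
          rw [Finset.mem_filter] at hj
          have h5 : (N : ℝ) ≤ pp j := by
            have : N ≤ pp j := by omega
            exact_mod_cast this
          exact div_le_div₀ zero_le_one (hμ j) hN' h5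
      _ = ((((Ico k L).filter (fun j => pp j ≤ N + s)).filter (fun j => ¬ pp j ≤ N)).card : ℝ) *
          (1 / (N : ℝ)) := by rw [Finset.sum_const, nsmul_eq_mul]
      _ ≤ (s : ℝ) * (1 / (N : ℝ)) :=
          mul_le_mul_of_nonneg_right (by exact_mod_cast h2) (by positivity)
      _ = s / N := by ring

/-- the number of primes up to a power -/
theorem ex_idx (T : ℝ) : ∃ k : ℕ, T < (pp k : ℝ) := by
  obtain ⟨n, hn⟩ := exists_nat_gt T
  refine ⟨n, hn.trans_le ?_⟩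
  have := pp_ge n
  have h : n ≤ pp n := by omega
  exact_mod_cast h

/-- the index of the first prime above `T` -/
noncomputable def idx (T : ℝ) : ℕ := by
  classical
  exact Nat.find (ex_idx T)

theorem idx_spec (T : ℝ) : T < (pp (idx T) : ℝ) := by
  classical
  unfold idx
  exact Nat.find_spec (ex_idx T)

theorem idx_le (T : ℝ) (hT : 1 ≤ T) : (idx T : ℝ) ≤ T := by
  classical
  rcases Nat.eq_zero_or_pos (idx T) with h | h
  · rw [h]
    push_cast
    linarith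
  · have h1 : ¬ T < (pp (idx T - 1) : ℝ) := by
      have h2 : idx T - 1 < idx T := by omega
      unfold idx at h2 ⊢
      exact Nat.find_min (ex_idx T) h2
    rw [not_lt] at h1
    have h3 := pp_ge (idx T - 1)
    have h4 : idx T ≤ pp (idx T - 1) := by omega
    have h5 : (idx T : ℝ) ≤ (pp (idx T - 1) : ℝ) := by exact_mod_cast h4
    linarith

/-- the error of the decomposition -/
theorem err (C₂ : ℝ) (hC₂ : 0 < C₂)
    (hlog : ∀ j : ℕ, Real.log (Nat.nth Nat.Prime j) ≤ C₂ * Real.log ((j : ℝ) + 2))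
    (η : ℝ) (hη : 0 < η) (N : ℕ) (hN : 3 ≤ N) :
    1 / (pp (idx ((N : ℝ) ^ η)) : ℝ) + (1 + Real.log (pp (idx ((N : ℝ) ^ η)))) / Real.log N ≤
      1 / (N : ℝ) ^ η + (1 + C₂ * Real.log 3) / Real.log N + C₂ * η := by
  have hN1 : (3 : ℝ) ≤ N := by exact_mod_cast hN
  have hT : 1 ≤ (N : ℝ) ^ η := Real.one_le_rpow (by linarith) hη.le
  have hl : 0 < Real.log N := Real.log_pos (by linarith)
  have h1 : 1 / (pp (idx ((N : ℝ) ^ η)) : ℝ) ≤ 1 / (N : ℝ) ^ η :=
    one_div_le_one_div_of_le (by linarith) (idx_spec _).le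
  have h2 : Real.log (pp (idx ((N : ℝ) ^ η))) ≤ C₂ * (Real.log 3 + η * Real.log N) := by
    refine (hlog _).trans (mul_le_mul_of_nonneg_left ?_ hC₂.le)
    have h3 := idx_le _ hT
    have h4 : ((idx ((N : ℝ) ^ η) : ℕ) : ℝ) + 2 ≤ 3 * (N : ℝ) ^ η := by linarith
    have h5 : (0 : ℝ) < ((idx ((N : ℝ) ^ η) : ℕ) : ℝ) + 2 := by positivity
    refine (Real.log_le_log h5 h4).trans (le_of_eq ?_)
    rw [Real.log_mul (by norm_num) (by linarith), Real.log_rpow (by linarith)]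
  have h3 : (1 + Real.log (pp (idx ((N : ℝ) ^ η)))) / Real.log N ≤
      (1 + C₂ * Real.log 3) / Real.log N + C₂ * η := by
    rw [← sub_nonneg]
    have e : (1 + C₂ * Real.log 3) / Real.log N + C₂ * η -
        (1 + Real.log (pp (idx ((N : ℝ) ^ η)))) / Real.log N =
        (C₂ * (Real.log 3 + η * Real.log N) - Real.log (pp (idx ((N : ℝ) ^ η)))) /
          Real.log N := by
      field_simp
      ring
    rw [e]
    exact div_nonneg (by linarith) hl.le
  linarith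

/-- almost sure convergence from summable expectations -/
theorem ae_of_sum {Ω : Type u} [MeasurableSpace Ω] (P : Measure Ω) (f : ℕ → Ω → ℝ)
    (hf0 : ∀ j ω, 0 ≤ f j ω) (hfm : ∀ j, Measurable (f j)) (hfi : ∀ j, Integrable (f j) P)
    (hsum : Summable fun j => ∫ ω, f j ω ∂P) :
    ∀ᵐ ω ∂P, Tendsto (fun j => f j ω) atTop (𝓝 0) := by
  have hlin : ∫⁻ ω, ∑' j, ENNReal.ofReal (f j ω) ∂P ≠ ⊤ := by
    rw [lintegral_tsum fun j => (hfm j).ennreal_ofReal.aemeasurable]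
    have h1 : ∀ j, ∫⁻ ω, ENNReal.ofReal (f j ω) ∂P = ENNReal.ofReal (∫ ω, f j ω ∂P) := by
      intro j
      exact (ofReal_integral_eq_lintegral_ofReal (hfi j)
        (Eventually.of_forall (hf0 j))).symm
    simp_rw [h1]
    rw [← ENNReal.ofReal_tsum_of_nonneg (fun j => integral_nonneg (hf0 j)) hsum]
    exact ENNReal.ofReal_ne_top
  have hae := ae_lt_top' (Measurable.tsum fun j => (hfm j).ennreal_ofReal).aemeasurable
    hlin
  filter_upwards [hae] with ω hω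
  have h1 := ENNReal.tendsto_atTop_zero_of_tsum_ne_top hω.ne
  have h3 := (ENNReal.tendsto_toReal ENNReal.zero_ne_top).comp h1
  rw [ENNReal.toReal_zero] at h3
  refine h3.congr fun j => ?_
  simp only [Function.comp]
  exact ENNReal.toReal_ofReal (hf0 j ω)

/-- the reciprocals of the powers of the scales are summable -/
theorem sum_scale (k : ℕ) (η : ℝ) (hη : 0 < η) :
    Summable fun l => 1 / (scale k l : ℝ) ^ η := by
  refine Summable.of_norm_bounded_eventually_nat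
    (g := fun l : ℕ => (2 * ((k : ℝ) + 1) ^ 2 / η) * (1 / (l : ℝ) ^ 2)) ?_ ?_
  · exact (Real.summable_one_div_nat_pow.2 (by norm_num)).mul_left _
  · filter_upwards [eventually_ge_atTop 1] with l hl
    have hl0 : (0 : ℝ) < l := by exact_mod_cast hl
    set y : ℝ := (l : ℝ) / (k + 1) with hy
    have hy0 : 0 < y := by positivity
    have h1 : y ^ 2 / 2 ≤ Real.exp y := by
      have := Real.quadratic_le_exp_of_nonneg hy0.le
      linarith
    have h2 : η * (y ^ 2 / 2) ≤ (scale k l : ℝ) ^ η := by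
      have h3 : Real.exp (Real.exp y * η) ≤ (scale k l : ℝ) ^ η := by
        rw [Real.exp_mul]
        exact Real.rpow_le_rpow (Real.exp_pos _).le (scale_ge k l) hη.le
      have h4 := Real.add_one_le_exp (Real.exp y * η)
      have h5 : η * (y ^ 2 / 2) ≤ η * Real.exp y := mul_le_mul_of_nonneg_left h1 hη.le
      linarith
    have h3 : 0 < η * (y ^ 2 / 2) := by positivity
    rw [Real.norm_eq_abs, abs_of_nonneg (by positivity)]
    refine (one_div_le_one_div_of_le h3 h2).trans (le_of_eq ?_)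
    rw [hy]
    field_simp

theorem abs_sg (b : Bool) : |sg b| ≤ 1 := by
  unfold sg
  split_ifs <;> simp

theorem sg_meas {Ω : Type u} [MeasurableSpace Ω] (ξ : Ω → ℕ → Bool)
    (hξ : ∀ j, Measurable fun ω => ξ ω j) (j : ℕ) : Measurable fun ω => sg (ξ ω j) :=
  (measurable_of_finite sg).comp (hξ j)

theorem fil_le {Ω : Type u} [m0 : MeasurableSpace Ω] (ξ : Ω → ℕ → Bool)
    (hξ : ∀ j, Measurable fun ω => ξ ω j) (j : ℕ) : fil ξ j ≤ m0 := by
  unfold fil
  refine iSup₂_le fun i _ => ?_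
  exact (hξ i).comap_le

theorem mu_bd {Ω : Type u} [MeasurableSpace Ω] (P : Measure Ω) [IsProbabilityMeasure P]
    (ξ : Ω → ℕ → Bool) :
    ∀ᵐ ω ∂P, ∀ j, |(P[fun ω' => sg (ξ ω' j) | fil ξ j]) ω| ≤ 1 := by
  rw [ae_all_iff]
  intro j
  have h := ae_bdd_abs_condExp_of_ae_bdd_abs (m := fil ξ j) (μ := P) (R := 1)
    (f := fun ω' => sg (ξ ω' j)) (Eventually.of_forall fun ω => by
      simpa using abs_sg (ξ ω j))
  simpa using h

theorem mu_meas {Ω : Type u} [MeasurableSpace Ω] (P : Measure Ω) [IsProbabilityMeasure P]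
    (ξ : Ω → ℕ → Bool) (hξ : ∀ j, Measurable fun ω => ξ ω j) (j : ℕ) :
    Measurable (P[fun ω' => sg (ξ ω' j) | fil ξ j]) :=
  (stronglyMeasurable_condExp.mono (fil_le ξ hξ j)).measurable

/-- the martingale part -/
noncomputable def W {Ω : Type u} [MeasurableSpace Ω] (P : Measure Ω) (ξ : Ω → ℕ → Bool)
    (H : Finset ℕ) (η : ℝ) (N : ℕ) (ω : Ω) : ℝ :=
  ∑ j ∈ Ico (idx ((N : ℝ) ^ η)) (N + H.sup id + 1),
    (sg (ξ ω j) - (P[fun ω' => sg (ξ ω' j) | fil ξ j]) ω) * Y N H j (ξ ω)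

/-- the martingale part tends to zero along the scales -/
theorem W_lim (hYB : T_YB) (hDEP : T_DEP) (hMSQ : T_MSQ.{u})
    {Ω : Type u} [MeasurableSpace Ω] (P : Measure Ω) [IsProbabilityMeasure P]
    (ξ : Ω → ℕ → Bool) (hξ : ∀ j, Measurable fun ω => ξ ω j) (H : Finset ℕ) (η : ℝ) (hη : 0 < η)
    (k : ℕ) : ∀ᵐ ω ∂P, Tendsto (fun l => W P ξ H η (scale k l) ω) atTop (𝓝 0) := by
  obtain ⟨C, hC, hY⟩ := hYB H
  have hms := fun N : ℕ => fun hN : 3 ≤ N => hMSQ Ω P ξ hξ (fun j x => Y N H j x)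
    (fun j => C / (pp j : ℝ)) (Ico (idx ((N : ℝ) ^ η)) (N + H.sup id + 1))
    (fun j x y h => hDEP N H j x y h) (fun j x => hY N j x hN)
  have hWm : ∀ N : ℕ, 3 ≤ N → Measurable (W P ξ H η N) := by
    intro N hN
    unfold W
    refine Finset.measurable_sum _ fun j _ => ?_
    exact ((sg_meas ξ hξ j).sub (mu_meas P ξ hξ j)).mul ((hms N hN).1 j)
  have hWb : ∀ N : ℕ, 3 ≤ N → ∀ᵐ ω ∂P, |W P ξ H η N ω| ≤
      ∑ j ∈ Ico (idx ((N : ℝ) ^ η)) (N + H.sup id + 1), 2 * (C / (pp j : ℝ)) := by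
    intro N hN
    filter_upwards [mu_bd P ξ] with ω hω
    unfold W
    refine (Finset.abs_sum_le_sum_abs _ _).trans (Finset.sum_le_sum fun j _ => ?_)
    rw [abs_mul]
    refine mul_le_mul ?_ (hY N j (ξ ω) hN) (abs_nonneg _) (by norm_num)
    have h1 := abs_sub (sg (ξ ω j)) ((P[fun ω' => sg (ξ ω' j) | fil ξ j]) ω)
    have h2 := abs_sg (ξ ω j)
    have h3 := hω j
    linarith
  have hWi : ∀ N : ℕ, 3 ≤ N → Integrable (fun ω => W P ξ H η N ω ^ 2) P := by
    intro N hN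
    refine Integrable.of_bound (C := (∑ j ∈ Ico (idx ((N : ℝ) ^ η)) (N + H.sup id + 1),
      2 * (C / (pp j : ℝ))) ^ 2) ((hWm N hN).pow_const _).aestronglyMeasurable ?_
    filter_upwards [hWb N hN] with ω hω
    rw [Real.norm_eq_abs, abs_pow]
    exact pow_le_pow_left₀ (abs_nonneg _) hω _
  have hWe : ∀ N : ℕ, 3 ≤ N → ∫ ω, W P ξ H η N ω ^ 2 ∂P ≤ 8 * C ^ 2 * (1 / (N : ℝ) ^ η) := by
    intro N hN
    refine (hms N hN).2.trans ?_
    have hN1 : (3 : ℝ) ≤ N := by exact_mod_cast hN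
    have hT : 1 ≤ (N : ℝ) ^ η := Real.one_le_rpow (by linarith) hη.le
    have h1 := sq_sum' (idx ((N : ℝ) ^ η)) (N + H.sup id + 1)
    have h2 : 2 / (pp (idx ((N : ℝ) ^ η)) : ℝ) ≤ 2 * (1 / (N : ℝ) ^ η) := by
      have := one_div_le_one_div_of_le (by linarith) (idx_spec ((N : ℝ) ^ η)).le
      calc 2 / (pp (idx ((N : ℝ) ^ η)) : ℝ) = 2 * (1 / (pp (idx ((N : ℝ) ^ η)) : ℝ)) := by ring
        _ ≤ _ := by linarith
    have h3 : ∑ j ∈ Ico (idx ((N : ℝ) ^ η)) (N + H.sup id + 1), (C / (pp j : ℝ)) ^ 2 =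
        C ^ 2 * ∑ j ∈ Ico (idx ((N : ℝ) ^ η)) (N + H.sup id + 1), 1 / (pp j : ℝ) ^ 2 := by
      rw [Finset.mul_sum]
      refine Finset.sum_congr rfl fun j _ => ?_
      rw [div_pow]
      ring
    rw [h3]
    have h4 : C ^ 2 * ∑ j ∈ Ico (idx ((N : ℝ) ^ η)) (N + H.sup id + 1), 1 / (pp j : ℝ) ^ 2 ≤
        C ^ 2 * (2 * (1 / (N : ℝ) ^ η)) :=
      mul_le_mul_of_nonneg_left (h1.trans h2) (by positivity)
    linarith
  have hsum : Summable fun l => ∫ ω, W P ξ H η (scale k l) ω ^ 2 ∂P := by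
    refine Summable.of_nonneg_of_le (fun l => integral_nonneg fun ω => sq_nonneg _)
      (fun l => hWe (scale k l) (scale_three k l)) ?_
    exact (sum_scale k η hη).mul_left _
  have hae := ae_of_sum P (fun l ω => W P ξ H η (scale k l) ω ^ 2) (fun l ω => sq_nonneg _)
    (fun l => (hWm (scale k l) (scale_three k l)).pow_const _)
    (fun l => hWi (scale k l) (scale_three k l)) hsum
  filter_upwards [hae] with ω hω
  rw [Metric.tendsto_atTop] at hω ⊢
  intro ε hε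
  obtain ⟨l0, hl0⟩ := hω (ε ^ 2) (by positivity)
  refine ⟨l0, fun l hl => ?_⟩
  have h := hl0 l hl
  rw [Real.dist_0_eq_abs, abs_of_nonneg (sq_nonneg _)] at h
  rw [Real.dist_0_eq_abs]
  exact abs_lt_of_sq_lt_sq h hε.le

theorem corr_le (x : ℕ → Bool) (H : Finset ℕ) (n : ℕ) : |corr (cm x) H n| ≤ 1 := by
  unfold corr
  rw [Finset.abs_prod]
  refine Finset.prod_le_one (fun h _ => abs_nonneg _) fun h _ => ?_
  exact abs_le.2 ⟨(cm x (n + h)).2.1, (cm x (n + h)).2.2⟩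

/-- the bound along the scales -/
theorem along (hDEC : T_DEC) (hYB : T_YB) (hCHB : T_CHB) (hDEP : T_DEP) (hMSQ : T_MSQ.{u})
    {Ω : Type u} [MeasurableSpace Ω] (P : Measure Ω) [IsProbabilityMeasure P]
    (ξ : Ω → ℕ → Bool) (hξ : ∀ j, Measurable fun ω => ξ ω j)
    (hb : ∀ η : ℝ, 0 < η → η < 1 → ∀ᵐ ω ∂P, Tendsto (fun N : ℕ =>
      ∑ j ∈ (range N).filter (fun j => (N : ℝ) ^ η < (Nat.nth Nat.Prime j : ℝ) ∧
        Nat.nth Nat.Prime j ≤ N), bias P ξ j ω / (Nat.nth Nat.Prime j : ℝ)) atTop (𝓝 0))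
    (H : Finset ℕ) (hH : H.Nonempty) : ∃ D : ℝ, ∀ (k : ℕ) (η : ℝ), 0 < η → η < 1 →
    ∀ᵐ ω ∂P, ∀ᶠ l in atTop, |lavg (scale k l) (corr (cm (ξ ω)) H)| ≤ D * η := by
  obtain ⟨C₁, hC₁, hD⟩ := hDEC H hH
  obtain ⟨C, hC, hY⟩ := hYB H
  obtain ⟨-, C₂, hC₂, hlog⟩ := hCHB
  refine ⟨C₁ * C₂ + 1, fun k η hη hη1 => ?_⟩
  filter_upwards [mu_bd P ξ, W_lim hYB hDEP hMSQ P ξ hξ H η hη k, hb η hη hη1] with ω hμ hW hB
  have hsc := scale_tendsto k
  have hscR : Tendsto (fun l => (scale k l : ℝ)) atTop atTop :=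
    tendsto_natCast_atTop_atTop.comp hsc
  have t1 : Tendsto (fun l => 1 / (scale k l : ℝ) ^ η) atTop (𝓝 0) :=
    (sum_scale k η hη).tendsto_atTop_zero
  have t2 : Tendsto (fun l => (1 + C₂ * Real.log 3) / Real.log (scale k l)) atTop (𝓝 0) :=
    (Real.tendsto_log_atTop.comp hscR).const_div_atTop _
  have t3 : Tendsto (fun l => |W P ξ H η (scale k l) ω|) atTop (𝓝 0) := by
    have := hW.abs
    rwa [abs_zero] at this
  have t4 := hB.comp hsc
  have t5 : Tendsto (fun l => ((H.sup id : ℕ) : ℝ) / (scale k l : ℝ)) atTop (𝓝 0) :=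
    hscR.const_div_atTop _
  have t6 := (((t1.add t2).add_const (C₂ * η)).const_mul C₁).add
    (t3.add ((t4.const_mul C).add (t5.const_mul C)))
  have hlt : C₁ * (0 + 0 + C₂ * η) + (0 + (C * 0 + C * 0)) < (C₁ * C₂ + 1) * η := by
    nlinarith
  filter_upwards [t6.eventually (gt_mem_nhds hlt)] with l hl
  refine le_trans ?_ hl.le
  have hN3 := scale_three k l
  set N := scale k l with hN
  have h1 := hD (ξ ω) N (idx ((N : ℝ) ^ η)) (N + H.sup id + 1) hN3 le_rfl
  have h2 := err C₂ hC₂ hlog η hη N hN3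
  have h3 := bias_part N (H.sup id) (idx ((N : ℝ) ^ η)) (N + H.sup id + 1) ((N : ℝ) ^ η) C hC.le
    (by omega) (idx_spec _) (fun j => (P[fun ω' => sg (ξ ω' j) | fil ξ j]) ω)
    (fun j => Y N H j (ξ ω)) hμ (fun j => hY N j (ξ ω) hN3)
    (fun j hj => Y_zero N H j (ξ ω) hj)
  have h4 : ∑ j ∈ Ico (idx ((N : ℝ) ^ η)) (N + H.sup id + 1), sg (ξ ω j) * Y N H j (ξ ω) =
      W P ξ H η N ω + ∑ j ∈ Ico (idx ((N : ℝ) ^ η)) (N + H.sup id + 1),
        (P[fun ω' => sg (ξ ω' j) | fil ξ j]) ω * Y N H j (ξ ω) := by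
    unfold W
    rw [← Finset.sum_add_distrib]
    refine Finset.sum_congr rfl fun j _ => ?_
    ring
  have h5 : |lavg N (corr (cm (ξ ω)) H)| ≤
      |lavg N (corr (cm (ξ ω)) H) - ∑ j ∈ Ico (idx ((N : ℝ) ^ η)) (N + H.sup id + 1),
        sg (ξ ω j) * Y N H j (ξ ω)| +
      |∑ j ∈ Ico (idx ((N : ℝ) ^ η)) (N + H.sup id + 1), sg (ξ ω j) * Y N H j (ξ ω)| := by
    have := abs_add_le (lavg N (corr (cm (ξ ω)) H) -
      ∑ j ∈ Ico (idx ((N : ℝ) ^ η)) (N + H.sup id + 1), sg (ξ ω j) * Y N H j (ξ ω))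
      (∑ j ∈ Ico (idx ((N : ℝ) ^ η)) (N + H.sup id + 1), sg (ξ ω j) * Y N H j (ξ ω))
    rwa [sub_add_cancel] at this
  have h6 : |∑ j ∈ Ico (idx ((N : ℝ) ^ η)) (N + H.sup id + 1), sg (ξ ω j) * Y N H j (ξ ω)| ≤
      |W P ξ H η N ω| + |∑ j ∈ Ico (idx ((N : ℝ) ^ η)) (N + H.sup id + 1),
        (P[fun ω' => sg (ξ ω' j) | fil ξ j]) ω * Y N H j (ξ ω)| := by
    rw [h4]
    exact abs_add_le _ _
  have h7 := mul_le_mul_of_nonneg_left h2 hC₁.le
  have h8 := h1.trans h7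
  have h9 := add_le_add h8 (h6.trans (add_le_add le_rfl h3))
  refine h5.trans (h9.trans (le_of_eq ?_))
  rfl

theorem pf_XDAS (hDEC : T_DEC) (hYB : T_YB) (hCHB : T_CHB) (hDEP : T_DEP) (hMSQ : T_MSQ.{u})
    (hINT : T_INT) : T_DAS.{u} := by
  intro Ω _ P _ ξ hξ hb H hH
  obtain ⟨D, hD⟩ := along hDEC hYB hCHB hDEP hMSQ P ξ hξ hb H hH
  have h1 : ∀ᵐ ω ∂P, ∀ k m : ℕ, ∀ᶠ l in atTop,
      |lavg (scale k l) (corr (cm (ξ ω)) H)| ≤ D * (1 / ((m : ℝ) + 2)) := by
    rw [ae_all_iff]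
    intro k
    rw [ae_all_iff]
    intro m
    have h0 : (0 : ℝ) ≤ m := Nat.cast_nonneg m
    refine hD k _ (by positivity) ?_
    rw [div_lt_one (by positivity)]
    linarith
  filter_upwards [h1] with ω hω
  refine hINT _ (fun n => corr_le (ξ ω) H n) fun k => ?_
  rw [Metric.tendsto_atTop]
  intro ε hε
  obtain ⟨m, hm⟩ := exists_nat_gt (|D| / ε)
  have h0 : (0 : ℝ) ≤ m := Nat.cast_nonneg m
  have h2 : D * (1 / ((m : ℝ) + 2)) < ε := by
    rw [mul_one_div, div_lt_iff₀ (by positivity)]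
    rw [div_lt_iff₀ hε] at hm
    have := le_abs_self D
    nlinarith
  obtain ⟨l0, hl0⟩ := eventually_atTop.1 (hω k m)
  refine ⟨l0, fun l hl => ?_⟩
  rw [Real.dist_0_eq_abs]
  exact (hl0 l hl).trans_lt h2

end Pool.Agent.H74.EX
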